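import Pool.Agent.Q89.MR4

/-!
# MP_5b5905: the weakly reset property of Mealy automata is undecidable

A counter machine with undecidable halting problem is simulated by the iteration of one state of an
automaton on blocks `▷ G ... G D ... D ★`, one step in each application; the last letter `★`
survives a step only if the configuration fits into the block, and a second state overwrites blocks
by the initial configuration. The reset words are the words containing `★`. Some word keeps a letter
`★` under all compositions of the maps if and only if the machine stops on its input.
-/

namespace Pool.Agent.Results.MP_5b5905_lc.Undecidable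

open Pool.Agent.Q89.MR

theorem result :
    (¬ ∃ f : ℕ × ℕ × List (List (ℕ × ℕ)) → Bool, Computable f ∧
      ∀ (m d : ℕ) (A : Mealy (Fin m) (Fin d)), f (m, d, A.table) = true ↔ A.WeaklyReset) ∧
    (∃ d : ℕ, ¬ ∃ f : ℕ × List (List (ℕ × ℕ)) → Bool, Computable f ∧
      ∀ (m : ℕ) (A : Mealy (Fin m) (Fin d)), f (m, A.table) = true ↔ A.WeaklyReset) :=
  ⟨undecidable, undecidable_fixed⟩

end Pool.Agent.Results.MP_5b5905_lc.Undecidable
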